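import Pool.Agent.Helper90.RK.A13
import Pool.Agent.Helper90.RK.A14
import Pool.Agent.Helper90.RK.B19
import Pool.Agent.Helper90.RK.B20

/-!
# MP_6e7b64_an, Q1: no

There are a metrizable Choquet simplex `K` and a function `r : K → {1, 2, ...} ∪ {∞}` of class LU obeying the additive rule which is not realized by
any topological dynamical system.  `K` is the set of shift invariant probability measures on `{0,1}^ℕ` and `r x` is the number of extreme
points in the representation of `x` as a finite convex combination of extreme points (`∞` if there is none); so `r = 1` on the extreme points.

Towers.  For an arbitrary continuous `T` the levels are null measurable sets `L 0, ..., L (h-1)`, pairwise disjoint, with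
`T⁻¹ (L (i+1)) = L i` up to null sets (`TowerPartition`).  If `u` has finite rank in this sense then `T` is invertible mod `u` and these are
exactly the literal towers `B, T B, ..., T^(h-1) B` with `B` inside a set of full measure on which `T` is bijective; also every literal
tower whose levels have equal measure is of this kind.  The purely literal reading for non-injective `T` (arbitrary `B`, where images of null
sets may have positive measure) is not an invariant of the measure preserving system, and the additive rule, which the problem lists as
known for every `(X, T)`, would fail.  For injective continuous `T` (in particular for homeomorphisms) the theorem is also proved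
for the literal definition, with levels `T^i B` (`LitTower`).

Idea of the proof that `r` is not realized: suppose the ergodic measures are dense in the set of invariant measures.  Choose ergodic measures
`c_0, c_1, c_2, ...`, each `c_k` extremely close to the mean of `c_0, ..., c_(k-1)`, converging to an ergodic measure `u`.  At a scale `N_k` the `c_j`, `j < k`,
are separated in the mean distance by a fixed amount, every `c_j` has weight `1/k` in `u`, and a `u`-typical point keeps its type during a time
much longer than `N_(k+1)`.  One tower of height between `C N_k` and `C N_(k+1)` would have to follow all types at once in every level.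
-/

namespace Pool.Agent.Results.MP_6e7b64_an.PoulsenRankOne

open MeasureTheory Set Filter Topology RK

theorem not_realizes {X : Type*} [MetricSpace X] [CompactSpace X] [MeasurableSpace X] [BorelSpace X]
    {T : X → X} (hT : Continuous T) (π : InvM T ≃ₜ KK) (hπ : IsAffineMap (T := T) π) :
    ∃ μ : InvM T, rK (π μ) = 1 ∧ ¬ RankLE T (μ.1 : Measure X) 1 := by
  obtain ⟨u, hu, hr⟩ := exists_bad hT (dense_ergodic π hπ KK_dense) (two_ergodic π hπ two_ext)
  exact ⟨⟨u, hu.toMeasurePreserving⟩, rK_ext _ (ext_of_ergodic π hπ _ hu), hr⟩

/-- There are a metrizable Choquet simplex `K` and a function `r : K → {1, 2, ...} ∪ {∞}` of class LU obeying the additive rule such that no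
topological dynamical system realizes `r`. -/
theorem result.{u} : ∃ (K : Set (List Bool → ℝ)) (r : K → ℕ∞),
    IsSimplex K ∧ TopologicalSpace.MetrizableSpace K ∧
    IsLU (fun x => ((r x : ENNReal) : EReal)) ∧ AdditiveRule K r ∧
    (∀ (X : Type u) [MetricSpace X] [CompactSpace X] [MeasurableSpace X] [BorelSpace X]
      (T : X → X), Continuous T → ¬ Realizes T K r) ∧
    (∀ (X : Type u) [MetricSpace X] [CompactSpace X] [MeasurableSpace X] [BorelSpace X]
      (T : X → X), Continuous T → Function.Injective T → ¬ RealizesLit T K r) := by
  refine ⟨KK, rK, KK_simplex, KK_metrizable, rK_LU, rK_additive, ?_, ?_⟩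
  · intro X _ _ _ _ T hT h
    obtain ⟨π, hπ, h⟩ := h
    obtain ⟨μ, h1, h2⟩ := not_realizes hT π hπ
    exact h2 (rankLE_of_rank ((h μ).symm.trans h1))
  · intro X _ _ _ _ T hT hinj h
    obtain ⟨π, hπ, h⟩ := h
    obtain ⟨μ, h1, h2⟩ := not_realizes hT π hπ
    have h3 := rankLELit_of_rankLit ((h μ).symm.trans h1)
    exact h2 (rankLE_of_lit (hT.isClosedEmbedding hinj).measurableEmbedding μ.2 h3)

end Pool.Agent.Results.MP_6e7b64_an.PoulsenRankOne
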